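import Mathlib

set_option autoImplicit false

/-!
`AR_FF(H) ≤ (τ(H) + 1) k / 2` for every graph `H` with `k ≥ 1` edges.

Let `S` be a minimum vertex cover and assign every edge of `H` to one of its endpoints in `S`.
Order `S` as `v₁, …, v_τ` so that the numbers `s₁ ≤ … ≤ s_τ` of assigned edges increase, and
number the edges of `H` by `1, …, k` such that the edges assigned to `v₁` come first, then those
assigned to `v₂`, and so on.  With `M_i = s₁ + … + s_i`, Builder completes the set of colours at
`v_i` to `1, …, M_i` by pendant edges.  The resulting graph has at most `M₁ + … + M_τ` edges, and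
this is at most `(τ + 1) k / 2` because the `s_i` increase.  Presenting the edges in the order of
their colours, First-Fit reproduces this colouring, and `H` is rainbow.
-/

namespace Pool.Agent.Results.MP_071c0d_co.HalvedBound

open Finset

/-- The unordered pairs `e` and `f` have a common vertex. -/
def Meets {X : Type} (e f : Sym2 X) : Prop := ∃ v, v ∈ e ∧ v ∈ f

/-- The First-Fit colour of a new edge `e` when the coloured edges so far are listed in `L`: the
smallest positive integer which is not the colour of an edge of `L` adjacent to `e`. -/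
noncomputable def ffColour (L : List (Sym2 ℕ × ℕ)) (e : Sym2 ℕ) : ℕ :=
  sInf {c | 1 ≤ c ∧ ∀ p ∈ L, Meets p.1 e → p.2 ≠ c}

/-- The coloured graph after Builder has added the edges of a list, the head of the list being
added last. -/
noncomputable def play : List (Sym2 ℕ) → List (Sym2 ℕ × ℕ)
  | [] => []
  | e :: es => (e, ffColour (play es) e) :: play es

/-- Builder's sequence of edges on the vertex set `ℕ` is legal: no loops, no repeated edges. -/
def Legal (es : List (Sym2 ℕ)) : Prop := es.Nodup ∧ ∀ e ∈ es, ¬ e.IsDiag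

/-- The coloured graph `L` contains a rainbow copy of `H`: an injective map `f` of the vertices and
a colour `g e` for every edge `e` of `H`, different edges having different colours, such that the
image of `e` is an edge of `L` of colour `g e`. -/
def HasRainbow {V : Type} (H : SimpleGraph V) (L : List (Sym2 ℕ × ℕ)) : Prop :=
  ∃ (f : V ↪ ℕ) (g : Sym2 V → ℕ), Set.InjOn g H.edgeSet ∧
    ∀ e ∈ H.edgeSet, (Sym2.map f e, g e) ∈ L

/-- The First-Fit anti-Ramsey number (First-Fit is deterministic, so Builder can ensure a rainbow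
copy after `t` edges iff some legal sequence of `t` edges produces one). -/
noncomputable def ARFF {V : Type} (H : SimpleGraph V) : ℕ :=
  sInf {t | ∃ es : List (Sym2 ℕ), Legal es ∧ es.length = t ∧ HasRainbow H (play es)}

/-- The vertex cover number. -/
noncomputable def tau {V : Type} (H : SimpleGraph V) : ℕ :=
  sInf {m | ∃ S : Finset V, S.card = m ∧ ∀ a b, H.Adj a b → a ∈ S ∨ b ∈ S}

/-- A finite properly coloured simple graph in which every edge of colour `c` is adjacent to edges
of all smaller colours. -/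
structure Static {X : Type} (D : Finset (Sym2 X × ℕ)) : Prop where
  diag : ∀ p ∈ D, ¬ p.1.IsDiag
  inj : ∀ p ∈ D, ∀ q ∈ D, p.1 = q.1 → p = q
  proper : ∀ p ∈ D, ∀ q ∈ D, Meets p.1 q.1 → p.2 = q.2 → p = q
  pos : ∀ p ∈ D, 1 ≤ p.2
  ff : ∀ p ∈ D, ∀ c, 1 ≤ c → c < p.2 → ∃ q ∈ D, q.2 = c ∧ Meets q.1 p.1

theorem play_of_static : ∀ (m : ℕ) (D : Finset (Sym2 ℕ × ℕ)), D.card = m → Static D →
    ∃ es : List (Sym2 ℕ), Legal es ∧ es.length = m ∧ (∀ q, q ∈ play es ↔ q ∈ D) ∧
      ∀ e ∈ es, ∃ p ∈ D, p.1 = e := by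
  classical
  intro m
  induction m with
  | zero =>
    intro D hD _
    rw [card_eq_zero] at hD
    subst hD
    exact ⟨[], ⟨List.nodup_nil, by simp⟩, rfl, by simp [play], by simp⟩
  | succ m ih =>
    intro D hD hS
    have hne : D.Nonempty := by
      rw [← card_pos]; omega
    obtain ⟨p, hp, hmax⟩ := exists_max_image D (fun q => q.2) hne
    have hS' : Static (D.erase p) := by
      refine ⟨?_, ?_, ?_, ?_, ?_⟩
      · exact fun q hq => hS.diag q (mem_of_mem_erase hq)
      · exact fun q hq q' hq' => hS.inj q (mem_of_mem_erase hq) q' (mem_of_mem_erase hq')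
      · exact fun q hq q' hq' => hS.proper q (mem_of_mem_erase hq) q' (mem_of_mem_erase hq')
      · exact fun q hq => hS.pos q (mem_of_mem_erase hq)
      · intro q hq c hc1 hc2
        obtain ⟨q', hq', h1, h2⟩ := hS.ff q (mem_of_mem_erase hq) c hc1 hc2
        refine ⟨q', mem_erase.2 ⟨?_, hq'⟩, h1, h2⟩
        rintro rfl
        have := hmax q (mem_of_mem_erase hq)
        omega
    obtain ⟨es, hleg, hlen, hplay, hes⟩ := ih (D.erase p)
      (by rw [card_erase_of_mem hp, hD]; rfl) hS'
    have hcol : ffColour (play es) p.1 = p.2 := by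
      unfold ffColour
      apply le_antisymm
      · apply Nat.sInf_le
        refine ⟨hS.pos p hp, ?_⟩
        intro q hq hm he
        rw [hplay] at hq
        exact (mem_erase.1 hq).1 (hS.proper q (mem_of_mem_erase hq) p hp hm he)
      · have hmem : sInf {c | 1 ≤ c ∧ ∀ q ∈ play es, Meets q.1 p.1 → q.2 ≠ c} ∈
            {c | 1 ≤ c ∧ ∀ q ∈ play es, Meets q.1 p.1 → q.2 ≠ c} := by
          apply Nat.sInf_mem
          refine ⟨p.2, hS.pos p hp, ?_⟩
          intro q hq hm he
          rw [hplay] at hq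
          exact (mem_erase.1 hq).1 (hS.proper q (mem_of_mem_erase hq) p hp hm he)
        by_contra hlt
        push Not at hlt
        obtain ⟨h1, h2⟩ := hmem
        obtain ⟨q, hq, hqc, hqm⟩ := hS.ff p hp _ h1 hlt
        refine h2 q ?_ hqm hqc
        rw [hplay]
        refine mem_erase.2 ⟨?_, hq⟩
        rintro rfl
        omega
    refine ⟨p.1 :: es, ⟨?_, ?_⟩, by simp [hlen], ?_, ?_⟩
    · rw [List.nodup_cons]
      refine ⟨?_, hleg.1⟩
      intro hmem
      obtain ⟨q, hq, hqe⟩ := hes _ hmem
      exact (mem_erase.1 hq).1 (hS.inj q (mem_of_mem_erase hq) p hp hqe)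
    · intro e he
      rcases List.mem_cons.1 he with rfl | he
      · exact hS.diag p hp
      · exact hleg.2 e he
    · intro q
      simp only [play, hcol, List.mem_cons, hplay, mem_erase]
      constructor
      · rintro (rfl | h)
        · exact hp
        · exact h.2
      · intro h
        by_cases hqp : q = p
        · exact Or.inl hqp
        · exact Or.inr ⟨hqp, h⟩
    · intro e he
      rcases List.mem_cons.1 he with rfl | he
      · exact ⟨p, hp, rfl⟩
      · obtain ⟨q, hq, hqe⟩ := hes e he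
        exact ⟨q, mem_of_mem_erase hq, hqe⟩

theorem meets_map {X Y : Type} (j : X ↪ Y) (e f : Sym2 X) :
    Meets (Sym2.map j e) (Sym2.map j f) ↔ Meets e f := by
  constructor
  · rintro ⟨v, h1, h2⟩
    rw [Sym2.mem_map] at h1 h2
    obtain ⟨a, ha, rfl⟩ := h1
    obtain ⟨b, hb, hab⟩ := h2
    obtain rfl := j.injective hab
    exact ⟨_, ha, hb⟩
  · rintro ⟨v, h1, h2⟩
    exact ⟨j v, Sym2.mem_map.2 ⟨v, h1, rfl⟩, Sym2.mem_map.2 ⟨v, h2, rfl⟩⟩

theorem static_map {X : Type} (j : X ↪ ℕ) (D : Finset (Sym2 X × ℕ)) (hS : Static D) :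
    Static (D.map ⟨fun p => (Sym2.map j p.1, p.2), by
      rintro ⟨a, b⟩ ⟨c, d⟩ h
      simp only [Prod.mk.injEq] at h
      exact Prod.ext (Sym2.map.injective j.injective h.1) h.2⟩) := by
  refine ⟨?_, ?_, ?_, ?_, ?_⟩
  · intro p hp
    obtain ⟨q, hq, rfl⟩ := mem_map.1 hp
    have h1 := hS.diag q hq
    change ¬ (Sym2.map j q.1).IsDiag
    revert h1
    generalize q.1 = e
    induction e with
    | h a b =>
      intro h1
      simpa using h1
  · intro p hp q hq h
    obtain ⟨p', hp', rfl⟩ := mem_map.1 hp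
    obtain ⟨q', hq', rfl⟩ := mem_map.1 hq
    have := hS.inj p' hp' q' hq' (Sym2.map.injective j.injective h)
    rw [this]
  · intro p hp q hq h h2
    obtain ⟨p', hp', rfl⟩ := mem_map.1 hp
    obtain ⟨q', hq', rfl⟩ := mem_map.1 hq
    have := hS.proper p' hp' q' hq' ((meets_map j _ _).1 h) h2
    rw [this]
  · intro p hp
    obtain ⟨q, hq, rfl⟩ := mem_map.1 hp
    exact hS.pos q hq
  · intro p hp c hc1 hc2
    obtain ⟨p', hp', rfl⟩ := mem_map.1 hp
    obtain ⟨q, hq, h1, h2⟩ := hS.ff p' hp' c hc1 hc2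
    exact ⟨_, mem_map.2 ⟨q, hq, rfl⟩, h1, (meets_map j _ _).2 h2⟩

theorem sum_bound (t : ℕ) (s : Fin t → ℕ) (hs : Monotone s) :
    2 * ∑ i, ∑ j ∈ univ.filter (fun j => j ≤ i), s j ≤ (t + 1) * ∑ i, s i := by
  have h1 : ∑ i : Fin t, ∑ j ∈ univ.filter (fun j => j ≤ i), s j = ∑ j : Fin t, (t - j.val) * s j := by
    simp only [sum_filter]
    rw [sum_comm]
    refine sum_congr rfl fun j _ => ?_
    rw [← sum_filter, sum_const, smul_eq_mul]
    congr 1
    rw [show (univ.filter (fun i : Fin t => j ≤ i)) = Finset.Ici j by ext; simp, Fin.card_Ici]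
  have h2 : (0 : ℤ) ≤ ∑ j : Fin t, (2 * (j.val : ℤ) + 1 - t) * (s j : ℤ) := by
    have e1 : ∑ j : Fin t, (2 * (j.val : ℤ) + 1 - t) * (s j : ℤ) =
        ∑ j : Fin t, (2 * ((Fin.rev j).val : ℤ) + 1 - t) * (s (Fin.rev j) : ℤ) :=
      (Equiv.sum_comp Fin.revPerm
        (fun j : Fin t => (2 * (j.val : ℤ) + 1 - t) * (s j : ℤ))).symm
    have e2 : 2 * ∑ j : Fin t, (2 * (j.val : ℤ) + 1 - t) * (s j : ℤ) =
        ∑ j : Fin t, (2 * (j.val : ℤ) + 1 - t) * ((s j : ℤ) - s (Fin.rev j)) := by
      rw [two_mul]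
      nth_rewrite 2 [e1]
      rw [← sum_add_distrib]
      refine sum_congr rfl fun j _ => ?_
      have : ((Fin.rev j).val : ℤ) = t - 1 - j.val := by
        rw [Fin.val_rev]
        have := j.isLt
        omega
      rw [this]
      ring
    have e3 : (0 : ℤ) ≤ ∑ j : Fin t, (2 * (j.val : ℤ) + 1 - t) * ((s j : ℤ) - s (Fin.rev j)) := by
      refine sum_nonneg fun j _ => ?_
      rcases le_total (Fin.rev j) j with h | h
      · have h' := hs h
        have h3 : (Fin.rev j).val ≤ j.val := h
        rw [Fin.val_rev] at h3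
        apply mul_nonneg
        · omega
        · have : (s (Fin.rev j) : ℤ) ≤ s j := by exact_mod_cast h'
          linarith
      · have h' := hs h
        have h3 : j.val ≤ (Fin.rev j).val := h
        rw [Fin.val_rev] at h3
        apply mul_nonneg_of_nonpos_of_nonpos
        · omega
        · have : (s j : ℤ) ≤ s (Fin.rev j) := by exact_mod_cast h'
          linarith
    linarith
  rw [h1]
  zify
  have h3 : ∑ j : Fin t, (((t - j.val : ℕ) : ℤ) * (s j : ℤ)) = ∑ j : Fin t, ((t : ℤ) - j.val) * s j := by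
    refine sum_congr rfl fun j _ => ?_
    rw [Nat.cast_sub j.isLt.le]
  rw [h3, mul_sum, mul_sum, ← sub_nonneg, ← sum_sub_distrib]
  refine h2.trans_eq ?_
  refine sum_congr rfl fun j _ => ?_
  ring

theorem construct {V : Type} (k t : ℕ) (E : Fin k → Sym2 V) (hE : Function.Injective E)
    (hdiag : ∀ j, ¬ (E j).IsDiag) (own : Fin k → Fin t) (hown : Monotone own) (v : Fin t → V)
    (hv : Function.Injective v) (hmem : ∀ j, v (own j) ∈ E j) :
    ∃ D : Finset (Sym2 (V ⊕ (Fin t × ℕ)) × ℕ), Static D ∧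
      (∀ j : Fin k, (Sym2.map Sum.inl (E j), j.val + 1) ∈ D) ∧
      D.card ≤ ∑ i, ∑ i' ∈ univ.filter (fun i' => i' ≤ i),
        (univ.filter (fun j => own j = i')).card := by
  classical
  set M : Fin t → ℕ := fun i => (univ.filter (fun j => own j ≤ i)).card with hM
  set F : Fin k → Sym2 (V ⊕ (Fin t × ℕ)) × ℕ := fun j => (Sym2.map Sum.inl (E j), j.val + 1)
    with hF
  set G : Fin t × ℕ → Sym2 (V ⊕ (Fin t × ℕ)) × ℕ := fun ic =>
    (s(Sum.inl (v ic.1), Sum.inr ic), ic.2) with hG
  set fib : Fin t → Finset ℕ := fun i => (Icc 1 (M i)).filter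
    (fun c => ∀ j : Fin k, j.val + 1 = c → v i ∉ E j) with hfib
  set pend : Finset (Fin t × ℕ) := univ.biUnion (fun i => (fib i).image (fun c => (i, c)))
    with hpend
  have hpm : ∀ ic : Fin t × ℕ, ic ∈ pend ↔ ic.2 ∈ fib ic.1 := by
    rintro ⟨i, c⟩
    simp [hpend]
  have hfm : ∀ i c, c ∈ fib i ↔ (1 ≤ c ∧ c ≤ M i) ∧ ∀ j : Fin k, j.val + 1 = c → v i ∉ E j := by
    intro i c
    rw [hfib]
    simp only [mem_filter, mem_Icc]
  have hle : ∀ j, j.val + 1 ≤ M (own j) := by
    intro j
    have : Finset.Iic j ⊆ univ.filter (fun j' => own j' ≤ own j) := by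
      intro j' hj'
      rw [Finset.mem_Iic] at hj'
      simpa using hown hj'
    have h2 := card_le_card this
    rwa [Fin.card_Iic] at h2
  have hFD : ∀ (j : Fin k) x, x ∈ (F j).1 ↔ ∃ a ∈ E j, Sum.inl a = x := by
    intro j x
    simp only [hF, Sym2.mem_map]
  have hGD : ∀ (ic : Fin t × ℕ) x, x ∈ (G ic).1 ↔ x = Sum.inl (v ic.1) ∨ x = Sum.inr ic := by
    intro ic x
    simp only [hG, Sym2.mem_iff]
  -- an `H`-edge and a pendant edge of the same colour do not meet
  have hFG : ∀ (j : Fin k) (ic : Fin t × ℕ), ic ∈ pend → Meets (F j).1 (G ic).1 →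
      (F j).2 ≠ (G ic).2 := by
    rintro j ic hic ⟨x, h1, h2⟩ h3
    obtain ⟨a, ha, rfl⟩ := (hFD j x).1 h1
    rcases (hGD ic _).1 h2 with h | h
    · have h4 : a = v ic.1 := Sum.inl_injective h
      subst h4
      exact ((hfm _ _).1 ((hpm ic).1 hic)).2 j h3 ha
    · cases h
  have hmeets_symm : ∀ e f : Sym2 (V ⊕ (Fin t × ℕ)), Meets e f → Meets f e := by
    rintro e f ⟨x, h1, h2⟩
    exact ⟨x, h2, h1⟩
  have hself : ∀ e : Sym2 (V ⊕ (Fin t × ℕ)), Meets e e := by
    intro e
    induction e with
    | h a b => exact ⟨a, by simp, by simp⟩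
  have hmD : ∀ p, p ∈ univ.image F ∪ pend.image G ↔ (∃ j, F j = p) ∨ ∃ ic ∈ pend, G ic = p := by
    intro p
    simp only [mem_union, mem_image, mem_univ, true_and]
  refine ⟨univ.image F ∪ pend.image G, ⟨?_, ?_, ?_, ?_, ?_⟩, ?_, ?_⟩
  · intro p hp
    rcases (hmD p).1 hp with ⟨j, rfl⟩ | ⟨ic, hic, rfl⟩
    · have h1 := hdiag j
      simp only [hF]
      revert h1
      generalize E j = e
      induction e with
      | h a b =>
        intro h1
        simpa using h1
    · simp [hG]
  · intro p hp q hq h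
    rcases (hmD p).1 hp with ⟨j, rfl⟩ | ⟨ic, hic, rfl⟩ <;>
      rcases (hmD q).1 hq with ⟨j', rfl⟩ | ⟨ic', hic', rfl⟩
    · have : E j = E j' := Sym2.map.injective Sum.inl_injective h
      rw [hE this]
    · exfalso
      have h1 : Sum.inr ic' ∈ (F j).1 := by
        rw [h]
        exact (hGD _ _).2 (Or.inr rfl)
      obtain ⟨a, -, ha⟩ := (hFD _ _).1 h1
      cases ha
    · exfalso
      have h1 : Sum.inr ic ∈ (F j').1 := by
        rw [← h]
        exact (hGD _ _).2 (Or.inr rfl)
      obtain ⟨a, -, ha⟩ := (hFD _ _).1 h1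
      cases ha
    · have h1 : Sum.inr ic ∈ (G ic').1 := by
        rw [← h]
        exact (hGD _ _).2 (Or.inr rfl)
      rcases (hGD _ _).1 h1 with h2 | h2
      · cases h2
      · rw [Sum.inr_injective h2]
  · intro p hp q hq h h2
    rcases (hmD p).1 hp with ⟨j, rfl⟩ | ⟨ic, hic, rfl⟩ <;>
      rcases (hmD q).1 hq with ⟨j', rfl⟩ | ⟨ic', hic', rfl⟩
    · have : j = j' := by
        apply Fin.ext
        simpa [hF] using h2
      rw [this]
    · exact absurd h2 (hFG j ic' hic' h)
    · exact absurd h2.symm (hFG j' ic hic (hmeets_symm _ _ h))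
    · obtain ⟨x, h3, h4⟩ := h
      have hc : ic.2 = ic'.2 := h2
      rcases (hGD _ _).1 h3 with rfl | rfl
      · rcases (hGD _ _).1 h4 with h5 | h5
        · have h6 : ic.1 = ic'.1 := hv (Sum.inl_injective h5)
          rw [Prod.ext h6 hc]
        · cases h5
      · rcases (hGD _ _).1 h4 with h5 | h5
        · cases h5
        · rw [Sum.inr_injective h5]
  · intro p hp
    rcases (hmD p).1 hp with ⟨j, rfl⟩ | ⟨ic, hic, rfl⟩
    · simp [hF]
    · exact ((hfm _ _).1 ((hpm ic).1 hic)).1.1
  · -- all colours up to `M i` are present at `v i`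
    have key : ∀ (i : Fin t) (c : ℕ), 1 ≤ c → c ≤ M i →
        ∃ q ∈ univ.image F ∪ pend.image G, q.2 = c ∧ Sum.inl (v i) ∈ q.1 := by
      intro i c h1 h2
      by_cases hc : ∃ j : Fin k, j.val + 1 = c ∧ v i ∈ E j
      · obtain ⟨j, hj, hvj⟩ := hc
        exact ⟨F j, (hmD _).2 (Or.inl ⟨j, rfl⟩), hj, (hFD _ _).2 ⟨_, hvj, rfl⟩⟩
      · push Not at hc
        have : (i, c) ∈ pend := (hpm _).2 ((hfm _ _).2 ⟨⟨h1, h2⟩, hc⟩)
        exact ⟨G (i, c), (hmD _).2 (Or.inr ⟨_, this, rfl⟩), rfl, (hGD _ _).2 (Or.inl rfl)⟩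
    intro p hp c hc1 hc2
    rcases (hmD p).1 hp with ⟨j, rfl⟩ | ⟨ic, hic, rfl⟩
    · have h3 : c ≤ M (own j) := by
        have := hle j
        have h4 : (F j).2 = j.val + 1 := rfl
        omega
      obtain ⟨q, hq, hqc, hqv⟩ := key (own j) c hc1 h3
      exact ⟨q, hq, hqc, _, hqv, (hFD _ _).2 ⟨_, hmem j, rfl⟩⟩
    · have h3 : c ≤ M ic.1 := by
        have := ((hfm _ _).1 ((hpm ic).1 hic)).1.2
        have h4 : (G ic).2 = ic.2 := rfl
        omega
      obtain ⟨q, hq, hqc, hqv⟩ := key ic.1 c hc1 h3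
      exact ⟨q, hq, hqc, _, hqv, (hGD _ _).2 (Or.inl rfl)⟩
  · intro j
    exact (hmD _).2 (Or.inl ⟨j, rfl⟩)
  · set s : Fin t → ℕ := fun i => (univ.filter (fun j => own j = i)).card with hs
    have hMs : ∀ i, M i = ∑ i' ∈ univ.filter (fun i' => i' ≤ i), s i' := by
      intro i
      have h1 := card_eq_sum_card_fiberwise (s := univ.filter (fun j => own j ≤ i))
        (t := univ.filter (fun i' => i' ≤ i)) (f := own) (by
          intro j hj
          simpa using hj)
      rw [hM]
      simp only
      rw [h1]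
      refine sum_congr rfl fun i' hi' => ?_
      rw [hs]
      simp only
      congr 1
      ext j
      simp only [mem_filter, mem_univ, true_and] at hi' ⊢
      constructor
      · exact fun h => h.2
      · rintro rfl
        exact ⟨hi', rfl⟩
    have hk : k = ∑ i, s i := by
      have h1 := card_eq_sum_card_fiberwise (s := (univ : Finset (Fin k)))
        (t := (univ : Finset (Fin t))) (f := own) (by
          intro j hj
          simp)
      rw [card_univ, Fintype.card_fin] at h1
      exact h1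
    have hfc : ∀ i, (fib i).card + s i ≤ M i := by
      intro i
      have h1 : s i = ((univ.filter (fun j => own j = i)).image (fun j => j.val + 1)).card := by
        rw [card_image_of_injective]
        intro a b h
        apply Fin.ext
        simpa using h
      have hdis : Disjoint (fib i) ((univ.filter (fun j => own j = i)).image
          (fun j => j.val + 1)) := by
        rw [Finset.disjoint_left]
        intro c hc hc'
        obtain ⟨j, hj, rfl⟩ := mem_image.1 hc'
        have h2 : own j = i := by simpa using hj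
        subst h2
        exact ((hfm _ _).1 hc).2 j rfl (hmem j)
      rw [h1, ← card_union_of_disjoint hdis]
      have h3 : fib i ∪ (univ.filter (fun j => own j = i)).image (fun j => j.val + 1) ⊆
          Icc 1 (M i) := by
        intro c hc
        rcases mem_union.1 hc with hc | hc
        · rw [mem_Icc]
          exact ((hfm _ _).1 hc).1
        · obtain ⟨j, hj, rfl⟩ := mem_image.1 hc
          have h2 : own j = i := by simpa using hj
          subst h2
          rw [mem_Icc]
          exact ⟨by omega, hle j⟩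
      refine (card_le_card h3).trans ?_
      simp
    have hpc : pend.card ≤ ∑ i, (fib i).card := by
      refine card_biUnion_le.trans (sum_le_sum fun i _ => card_image_le)
    calc (univ.image F ∪ pend.image G).card ≤ (univ.image F).card + (pend.image G).card :=
          card_union_le _ _
      _ ≤ k + pend.card := by
          refine add_le_add ?_ card_image_le
          refine card_image_le.trans ?_
          simp
      _ ≤ ∑ i, s i + ∑ i, (fib i).card := by
          rw [← hk]
          exact Nat.add_le_add_left hpc k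
      _ = ∑ i, ((fib i).card + s i) := by
          rw [sum_add_distrib, add_comm]
      _ ≤ ∑ i, M i := sum_le_sum fun i _ => hfc i
      _ = ∑ i, ∑ i' ∈ univ.filter (fun i' => i' ≤ i), s i' := sum_congr rfl fun i _ => hMs i

theorem main {V : Type} [Finite V] (H : SimpleGraph V) :
    ∃ es : List (Sym2 ℕ), Legal es ∧ HasRainbow H (play es) ∧
      2 * es.length ≤ (tau H + 1) * H.edgeSet.ncard := by
  classical
  have := Fintype.ofFinite V
  have hne : {m | ∃ S : Finset V, S.card = m ∧ ∀ a b, H.Adj a b → a ∈ S ∨ b ∈ S}.Nonempty :=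
    ⟨_, univ, rfl, fun a _ _ => Or.inl (mem_univ a)⟩
  obtain ⟨S, hS, hcov⟩ := Nat.sInf_mem hne
  change S.card = tau H at hS
  set t := tau H with ht
  set k := H.edgeSet.ncard with hk
  have hk' : Nat.card H.edgeSet = k := Nat.card_coe_set_eq _
  let e0 : Fin k ≃ H.edgeSet := (finCongr hk'.symm).trans (Finite.equivFin H.edgeSet).symm
  let v0 : Fin t ≃ S := (S.equivFinOfCardEq hS).symm
  have hown : ∀ e : H.edgeSet, ∃ i : Fin t, ((v0 i : S) : V) ∈ e.1 := by
    rintro ⟨e, he⟩
    revert he
    induction e with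
    | h a b =>
      intro he
      rcases hcov a b he with h | h
      · exact ⟨v0.symm ⟨a, h⟩, by simp⟩
      · exact ⟨v0.symm ⟨b, h⟩, by simp⟩
  choose own0 hown0 using hown
  set s0 : Fin t → ℕ := fun i => (univ.filter (fun j : Fin k => own0 (e0 j) = i)).card with hs0
  have hmono := Tuple.monotone_sort s0
  set π := Tuple.sort s0 with hπ
  set own1 : Fin k → Fin t := fun j => π.symm (own0 (e0 j)) with hown1
  have hmono1 := Tuple.monotone_sort own1
  set ρ := Tuple.sort own1 with hρ
  have hinjE : Function.Injective (fun j : Fin k => ((e0 (ρ j)).1 : Sym2 V)) := by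
    intro a b h
    exact ρ.injective (e0.injective (Subtype.ext h))
  obtain ⟨D, hD, hDE, hcard⟩ := construct k t (fun j => (e0 (ρ j)).1) hinjE
    (fun j => H.not_isDiag_of_mem_edgeSet (e0 (ρ j)).2) (own1 ∘ ρ) hmono1
    (fun i => ((v0 (π i) : S) : V)) (by
      intro a b h
      exact π.injective (v0.injective (Subtype.ext h)))
    (by
      intro j
      have : π ((own1 ∘ ρ) j) = own0 (e0 (ρ j)) := by
        simp only [hown1, Function.comp, Equiv.apply_symm_apply]
      rw [this]
      exact hown0 _)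
  have hs : ∀ i, (univ.filter (fun j => (own1 ∘ ρ) j = i)).card = s0 (π i) := by
    intro i
    rw [hs0]
    refine card_bij (fun j _ => ρ j) ?_ ?_ ?_
    · intro j hj
      simp only [mem_filter, mem_univ, true_and, Function.comp, hown1] at hj ⊢
      rw [← hj, Equiv.apply_symm_apply]
    · intro a _ b _ h
      exact ρ.injective h
    · intro j hj
      simp only [mem_filter, mem_univ, true_and] at hj
      refine ⟨ρ.symm j, ?_, by simp⟩
      simp only [mem_filter, mem_univ, true_and, Function.comp, hown1, Equiv.apply_symm_apply]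
      rw [hj, Equiv.symm_apply_apply]
  have hsum : ∑ i, s0 (π i) = k := by
    have h1 := card_eq_sum_card_fiberwise (s := (univ : Finset (Fin k)))
      (t := (univ : Finset (Fin t))) (f := own1 ∘ ρ) (by
        intro j hj
        simp)
    rw [card_univ, Fintype.card_fin] at h1
    rw [h1]
    exact sum_congr rfl fun i _ => (hs i).symm
  have hbound := sum_bound t (fun i => s0 (π i)) hmono
  rw [hsum] at hbound
  have hcard2 : 2 * D.card ≤ (t + 1) * k := by
    refine le_trans ?_ hbound
    refine Nat.mul_le_mul_left 2 (hcard.trans_eq ?_)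
    exact sum_congr rfl fun i _ => sum_congr rfl fun i' _ => hs i'
  obtain ⟨j0, hj0⟩ := exists_injective_nat (V ⊕ (Fin t × ℕ))
  set j : (V ⊕ (Fin t × ℕ)) ↪ ℕ := ⟨j0, hj0⟩ with hj
  obtain ⟨es, hleg, hlen, hplay, -⟩ := play_of_static _ _ rfl (static_map j D hD)
  refine ⟨es, hleg, ?_, ?_⟩
  · have hidx : ∀ e ∈ H.edgeSet, ∃ i : Fin k, ((e0 (ρ i)).1 : Sym2 V) = e := by
      intro e he
      exact ⟨ρ.symm (e0.symm ⟨e, he⟩), by simp⟩
    let idx : Sym2 V → ℕ := fun e => if h : e ∈ H.edgeSet then (hidx e h).choose.val + 1 else 0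
    refine ⟨⟨fun a => j (Sum.inl a), fun a b h => Sum.inl_injective (j.injective h)⟩, idx, ?_, ?_⟩
    · intro e he e' he' h
      have h1 := (hidx e he).choose_spec
      have h2 := (hidx e' he').choose_spec
      simp only [idx, dif_pos he, dif_pos he'] at h
      have h3 : (hidx e he).choose = (hidx e' he').choose := Fin.ext (by omega)
      rw [← h1, ← h2, h3]
    · intro e he
      rw [hplay, mem_map]
      refine ⟨_, hDE (hidx e he).choose, ?_⟩
      simp only [Function.Embedding.coeFn_mk, (hidx e he).choose_spec, idx, dif_pos he,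
        Sym2.map_map]
      rfl
  · rw [hlen, card_map]
    exact hcard2

/-- For every finite graph `H` with `k` edges and vertex cover number `τ`, Builder has a legal
sequence of at most `(τ + 1) k / 2` edges for which First-Fit produces a rainbow copy of `H`;
hence `AR_FF(H) ≤ (τ(H) + 1) k / 2`. -/
theorem result (V : Type) [Finite V] (H : SimpleGraph V) :
    (∃ es : List (Sym2 ℕ), Legal es ∧ HasRainbow H (play es) ∧
      2 * es.length ≤ (tau H + 1) * H.edgeSet.ncard) ∧
    (ARFF H : ℝ) ≤ ((tau H : ℝ) + 1) * (H.edgeSet.ncard : ℝ) / 2 := by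
  obtain ⟨es, h1, h2, h3⟩ := main H
  refine ⟨⟨es, h1, h2, h3⟩, ?_⟩
  have h4 : ARFF H ≤ es.length := Nat.sInf_le ⟨es, h1, rfl, h2⟩
  have h5 : 2 * ARFF H ≤ (tau H + 1) * H.edgeSet.ncard :=
    (Nat.mul_le_mul_left 2 h4).trans h3
  have h6 : (2 : ℝ) * (ARFF H : ℝ) ≤ ((tau H : ℝ) + 1) * (H.edgeSet.ncard : ℝ) := by
    exact_mod_cast h5
  linarith

end Pool.Agent.Results.MP_071c0d_co.HalvedBound
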